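import Mathlib
import Pool.Agent.R439.QLam
import Pool.Agent.R439.Phi5

set_option autoImplicit false

namespace Pool.Agent.Results.MP_c9c571_nt.LiuAnalogue

open Finset Polynomial Pool.Agent.R439

/-- The summand `a_k(q)` of the problem. -/
noncomputable def a (k : ℕ) : K :=
  q ^ k * ((1 + q ^ (4 * k + 1)) / (1 + q)) *
    ∏ j ∈ range k, ((1 - q ^ (4 * j + 2)) / (1 - q ^ (4 * j + 4))) ^ 3

/-- `R_n(q) = q^((1-n)/2) [n]_(q^2) ∏_{j ≤ (n-3)/2} (1-q^(4j+3))/(1-q^(4j+5))`. -/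
noncomputable def R (n : ℕ) : K :=
  q ^ ((1 - (n : ℤ)) / 2) * ((1 - q ^ (2 * n)) / (1 - q ^ 2)) *
    ∏ j ∈ range ((n - 1) / 2), (1 - q ^ (4 * j + 3)) / (1 - q ^ (4 * j + 5))

/-- The rational number `c_k = (1/2)_k^3/k!^3`. -/
def c (k : ℕ) : ℚ := rf (1 / 2) k ^ 3 / (k.factorial : ℚ) ^ 3

section
variable {n M t : ℕ} [NeZero n]

theorem a_eq (k : ℕ) : a k = q ^ k * ((1 + q ^ (4 * (k : ℤ) + 1)) / (1 + q)) *
    (poch (q ^ 2) (q ^ (2 * 2)) k / poch (q ^ (2 * 2)) (q ^ (2 * 2)) k) ^ 3 := by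
  have e1 : q ^ (4 * (k : ℤ) + 1) = q ^ (4 * k + 1) := by
    rw [← zpow_natCast q (4 * k + 1)]; push_cast; rfl
  have e2 : ∏ j ∈ range k, ((1 - q ^ (4 * j + 2)) / (1 - q ^ (4 * j + 4)) : K) ^ 3 =
      (poch (q ^ 2) (q ^ (2 * 2)) k / poch (q ^ (2 * 2)) (q ^ (2 * 2)) k) ^ 3 := by
    rw [poch, poch, ← prod_div_distrib, prod_pow]
    congr 1
    refine prod_congr rfl fun j _ => ?_
    have h1 : (q ^ 2 * (q ^ (2 * 2)) ^ j : K) = q ^ (4 * j + 2) := by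
      rw [← pow_mul, ← pow_add]; congr 1; ring
    have h2 : (q ^ (2 * 2) * (q ^ (2 * 2)) ^ j : K) = q ^ (4 * j + 4) := by
      rw [← pow_mul, ← pow_add]; congr 1; ring
    rw [h1, h2]
  rw [a, e1, e2]

/-- terms of a block -/
noncomputable def tt (n : ℕ) (j : ℤ) (i : ℕ) : K :=
  (1 + q ^ (4 * (i : ℤ) + 1 + n * (4 * j))) * q ^ i *
    (g1 n 2 i (4 * j) * g1 n 2 i (4 * j) * g1 n 2 i (4 * j) *
      ((g2 n 2 i (4 * j))⁻¹ * (g2 n 2 i (4 * j))⁻¹ * (g2 n 2 i (4 * j))⁻¹))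

/-- exactly summable terms -/
noncomputable def ss (n : ℕ) (j : ℤ) (i : ℕ) : K :=
  (1 + q ^ (4 * (i : ℤ) + 1 + n * (4 * j))) * q ^ i *
    (g1 n 2 i (8 * j) * g1 n 2 i (-2) * g1 n 2 i (4 * j + 2) *
      ((g2 n 2 i 0)⁻¹ * (g2 n 2 i (8 * j + 2))⁻¹ * (g2 n 2 i (4 * j - 2))⁻¹))

theorem hr2 (hn : n = 2 * M + 1) : Nat.Coprime n 2 := by
  rw [Nat.coprime_two_right]; exact ⟨M, by omega⟩

theorem tt_ss (hn : n = 2 * M + 1) (j : ℤ) {i : ℕ} (hi : i < n) :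
    EQ n 2 (tt n j i) (ss n j i) := by
  unfold tt ss
  refine (EQ.refl ?_).mul (EQ.mul ?_ ?_)
  · exact mul_mem (add_mem (one_mem _) (zpow_mem _)) (pow_mem' _)
  · exact (gp_aff (n := n) (pow_mem' _) _ i).mul_three _ _ _ _ _ _ (by ring)
  · exact ((gp_aff (n := n) (pow_mem' _) _ i).inv fun s => g2_U hn (hr2 hn) hi s).mul_three
      _ _ _ _ _ _ (by ring)

/-- value of the exactly summable block -/
noncomputable def FF (n M : ℕ) (j : ℤ) : K :=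
  g1 n 2 M (8 * j) * (1 - q ^ ((n : ℤ) * (8 * j + 2))) * poch (q ^ ((3 : ℤ) - 2 * n)) (q ^ 4) M /
    (poch (q ^ ((1 : ℤ) + n * (4 * j))) (q ^ 4) (M + 1) * g2 n 2 M (4 * j - 2))

theorem ss_sum (hn : n = 2 * M + 1) (j : ℕ) :
    ∑ i ∈ range (M + 1), ss n j i = FF n M j := by
  have hb0 : (q ^ (2 * 2) : K) ≠ 0 := pow_ne_zero _ q_ne
  have hb : ∀ i : ℕ, 0 < i → (q ^ (2 * 2) : K) ^ i ≠ 1 := qB_ne two_pos
  have hnz : (n : ℤ) = 2 * M + 1 := by rw [hn]; push_cast; ring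
  set aa : K := q ^ ((2 : ℤ) + n * (8 * j)) with ha
  set β : K := q ^ ((1 : ℤ) + n * (4 * j)) with hβ
  set dd : K := q ^ ((2 : ℤ) + n * (4 * j + 2)) with hdd
  have hβ0 : β ≠ 0 := zpow_ne_zero _ q_ne
  have hd0 : dd ≠ 0 := zpow_ne_zero _ q_ne
  have pw : ∀ (e : ℤ) (i : ℕ), q ^ e * (q ^ (2 * 2)) ^ i = q ^ (e + 4 * i) := by
    intro e i
    have h0 : ((2 * 2 * i : ℕ) : ℤ) = 4 * i := by push_cast; ring
    rw [← pow_mul, ← zpow_natCast q (2 * 2 * i), ← zpow_add₀ q_ne, h0]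
  have ha1 : ∀ i : ℕ, aa * (q ^ (2 * 2)) ^ i ≠ 1 := by
    intro i
    rw [ha, pw]
    apply q_zpow_ne_one; positivity
  have hβ1 : ∀ i : ℕ, β * (q ^ (2 * 2)) ^ i ≠ 1 := by
    intro i
    rw [hβ, pw]
    apply q_zpow_ne_one; positivity
  have haβ0 : aa * q ^ (2 * 2) / β = q ^ ((5 : ℤ) + n * (4 * j)) := by
    rw [ha, hβ, ← zpow_natCast q (2 * 2), ← zpow_add₀ q_ne, ← zpow_sub₀ q_ne]
    congr 1; push_cast; ring
  have haβ : ∀ i : ℕ, aa * q ^ (2 * 2) / β * (q ^ (2 * 2)) ^ i ≠ 1 := by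
    intro i
    rw [haβ0, pw]
    apply q_zpow_ne_one; positivity
  have had0 : aa * q ^ (2 * 2) / dd = q ^ ((4 : ℤ) + n * (4 * j - 2)) := by
    rw [ha, hdd, ← zpow_natCast q (2 * 2), ← zpow_add₀ q_ne, ← zpow_sub₀ q_ne]
    congr 1; push_cast; ring
  have had : ∀ i : ℕ, aa * q ^ (2 * 2) / dd * (q ^ (2 * 2)) ^ i ≠ 1 := by
    intro i
    rw [had0, pw]
    apply q_zpow_ne_one
    intro h
    have h2 : ((4 : ℤ) + n * (4 * j - 2) + 4 * i) % 4 = 0 := by rw [h]; rfl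
    rw [hnz] at h2
    have e : (4 : ℤ) + (2 * M + 1) * (4 * j - 2) + 4 * i =
        4 * (1 + 2 * M * j + j - M - 1 + i) + 2 := by ring
    rw [e] at h2
    omega
  have hsum := phi65 hb0 hb hβ0 hd0 ha1 haβ had M (M + 1) (Nat.lt_succ_self M)
  have hβm : aa * q ^ (2 * 2) / β = β * q ^ (2 * 2) := by
    rw [haβ0, hβ, ← zpow_natCast q (2 * 2), ← zpow_add₀ q_ne]; congr 1; push_cast; ring
  have h1β : 1 - β ≠ 0 := by
    have := hβ1 0
    rw [pow_zero, mul_one] at this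
    exact sub_ne_zero.2 this.symm
  have hterm : ∀ i ∈ range (M + 1), T6 (q ^ (2 * 2)) aa β dd M i = (1 - β) * ss n j i := by
    intro i _
    rw [ss, T6, hh, tc]
    have t1 : g1 n 2 i (8 * j) = poch aa (q ^ (2 * 2)) i := by
      rw [g1, gp, ha]; push_cast; rfl
    have t2 : g1 n 2 i (-2) = poch ((q ^ (2 * 2)) ^ (-(M : ℤ))) (q ^ (2 * 2)) i := by
      rw [g1, gp]
      congr 1
      rw [← zpow_natCast q (2 * 2), ← zpow_mul]; congr 1; rw [hnz]; push_cast; ring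
    have t3 : g1 n 2 i (4 * j + 2) = poch dd (q ^ (2 * 2)) i := by
      rw [g1, gp, hdd]; push_cast; rfl
    have t4 : g2 n 2 i 0 = poch (q ^ (2 * 2)) (q ^ (2 * 2)) i := by
      rw [g2, gp, mul_zero, add_zero, zpow_natCast]
    have t5 : g2 n 2 i (8 * j + 2) = poch (aa * (q ^ (2 * 2)) ^ (M + 1)) (q ^ (2 * 2)) i := by
      rw [g2, gp]
      congr 1
      rw [ha, pw]
      congr 1; rw [hnz]; push_cast; ring
    have t6 : g2 n 2 i (4 * j - 2) = poch (aa * q ^ (2 * 2) / dd) (q ^ (2 * 2)) i := by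
      rw [had0, g2, gp]; push_cast; rfl
    rw [t1, t2, t3, t4, t5, t6, hβm]
    have e1 : aa * ((q ^ (2 * 2)) ^ i) ^ 2 = (β * (q ^ (2 * 2)) ^ i) ^ 2 := by
      rw [mul_pow]; congr 1
      rw [ha, hβ, ← zpow_natCast (q ^ (_ : ℤ)) 2, ← zpow_mul]; congr 1; push_cast; ring
    have e2 : q ^ (4 * (i : ℤ) + 1 + n * (4 * j)) = β * (q ^ (2 * 2)) ^ i := by
      rw [hβ, pw]; congr 1; ring
    have e3 : (aa * (q ^ (2 * 2)) ^ (M + 1) / (β * dd)) = q := by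
      rw [ha, pw, hβ, hdd, ← zpow_add₀ q_ne, ← zpow_sub₀ q_ne]
      have : (2 : ℤ) + n * (8 * j) + 4 * ((M + 1 : ℕ) : ℤ) - (1 + n * (4 * j) + (2 + n * (4 * j + 2))) = 1 := by
        rw [hnz]; push_cast; ring
      rw [this, zpow_one]
    have e4 : poch β (q ^ (2 * 2)) i * (1 - β * (q ^ (2 * 2)) ^ i) =
        (1 - β) * poch (β * q ^ (2 * 2)) (q ^ (2 * 2)) i := by
      rw [← poch_succ, poch_succ']
    have h1 : poch (β * q ^ (2 * 2)) (q ^ (2 * 2)) i ≠ 0 := poch_ne fun l _ => by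
      have := haβ l; rwa [hβm] at this
    have h2 : poch (aa * q ^ (2 * 2) / dd) (q ^ (2 * 2)) i ≠ 0 := poch_ne fun l _ => had l
    rw [e1, e2, e3]
    have h3 : (1 - (β * (q ^ (2 * 2)) ^ i) ^ 2) * poch β (q ^ (2 * 2)) i =
        (1 - β) * (1 + β * (q ^ (2 * 2)) ^ i) * poch (β * q ^ (2 * 2)) (q ^ (2 * 2)) i := by
      linear_combination (1 + β * (q ^ (2 * 2)) ^ i) * e4
    have h4 : poch β (q ^ (2 * 2)) i * (1 - (β * (q ^ (2 * 2)) ^ i) ^ 2) /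
        poch (β * q ^ (2 * 2)) (q ^ (2 * 2)) i = (1 - β) * (1 + β * (q ^ (2 * 2)) ^ i) := by
      rw [div_eq_iff h1]; linear_combination h3
    generalize β * (q ^ (2 * 2)) ^ i = x at h4 ⊢
    generalize poch (β * q ^ (2 * 2)) (q ^ (2 * 2)) i = y1 at h4 h1 ⊢
    generalize poch β (q ^ (2 * 2)) i = y2 at h4 ⊢
    generalize poch (aa * q ^ (2 * 2) / dd) (q ^ (2 * 2)) i = y3 at h2 ⊢
    generalize poch aa (q ^ (2 * 2)) i = y4
    generalize poch dd (q ^ (2 * 2)) i = y5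
    generalize poch ((q ^ (2 * 2)) ^ (-(M : ℤ))) (q ^ (2 * 2)) i = y6
    generalize poch (aa * (q ^ (2 * 2)) ^ (M + 1)) (q ^ (2 * 2)) i = y7
    generalize poch (q ^ (2 * 2)) (q ^ (2 * 2)) i = y8
    calc (1 - x ^ 2) * (y4 * y2 * y5 / (y1 * y3)) * (y6 / y8) * q ^ i / y7
        = (y2 * (1 - x ^ 2) / y1) * (q ^ i * (y4 * y6 * y5 * (y8⁻¹ * y7⁻¹ * y3⁻¹))) := by
          rw [div_eq_mul_inv, div_eq_mul_inv, div_eq_mul_inv, div_eq_mul_inv, mul_inv]; ring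
      _ = _ := by rw [h4]; ring
  rw [sum_congr rfl hterm, ← mul_sum] at hsum
  have hP : poch aa (q ^ (2 * 2)) (M + 1) = g1 n 2 M (8 * j) * (1 - q ^ ((n : ℤ) * (8 * j + 2))) := by
    rw [poch_succ, g1, gp]
    have e1 : q ^ (((2 : ℕ) : ℤ) + (n : ℤ) * (8 * j)) = aa := by rw [ha]; push_cast; rfl
    have e2 : aa * (q ^ (2 * 2)) ^ M = q ^ ((n : ℤ) * (8 * j + 2)) := by
      rw [ha, pw]; congr 1; rw [hnz]; ring
    rw [e1, e2]
  have hQ : poch (aa * q ^ (2 * 2) / dd) (q ^ (2 * 2)) M = g2 n 2 M (4 * j - 2) := by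
    rw [had0, g2, gp]; push_cast; rfl
  have hE : aa * q ^ (2 * 2) / (β * dd) = q ^ ((3 : ℤ) - 2 * n) := by
    rw [ha, hβ, hdd, ← zpow_natCast q (2 * 2), ← zpow_add₀ q_ne, ← zpow_add₀ q_ne, ← zpow_sub₀ q_ne]
    congr 1; push_cast; ring
  have h22 : (q ^ (2 * 2) : K) = q ^ 4 := by norm_num
  have hden : poch β (q ^ 4) (M + 1) = (1 - β) * poch (aa * q ^ (2 * 2) / β) (q ^ (2 * 2)) M := by
    rw [poch_succ', hβm, h22]
  have hne1 : poch (aa * q ^ (2 * 2) / β) (q ^ (2 * 2)) M ≠ 0 := poch_ne fun i _ => haβ i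
  have hne2 : poch (aa * q ^ (2 * 2) / dd) (q ^ (2 * 2)) M ≠ 0 := poch_ne fun i _ => had i
  rw [FF, hden, ← hP, ← hQ, ← h22, ← hE]
  apply mul_left_cancel₀ h1β
  rw [hsum]
  field_simp

/-- factorization of the denominator -/
theorem den_split (hn : n = 2 * M + 1) (hM : M = 2 * t) (j : ℤ) :
    poch (q ^ ((1 : ℤ) + n * (4 * j))) (q ^ 4) (M + 1) =
      gp n 1 (q ^ 4) t (4 * j) * (1 - q ^ ((n : ℤ) * (4 * j + 1))) * gp n 4 (q ^ 4) t (4 * j + 1) := by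
  have hnz : (n : ℤ) = 4 * t + 1 := by rw [hn, hM]; push_cast; ring
  have pw : ∀ (e : ℤ) (i : ℕ), q ^ e * (q ^ 4) ^ i = q ^ (e + 4 * i) := by
    intro e i
    rw [← pow_mul, ← zpow_natCast q (4 * i), ← zpow_add₀ q_ne]; congr 1
  rw [hM, show 2 * t + 1 = t + 1 + t by ring, poch_add, poch_succ, gp, gp, pw, pw]
  congr 2
  · congr 2
    congr 1; rw [hnz]; ring
  · congr 1; rw [hnz]; push_cast; ring

theorem nd14 (hn : n = 2 * M + 1) (hM : M = 2 * t) : ∀ l < t, ¬ (n : ℤ) ∣ (1 : ℤ) + ((4 : ℕ) : ℤ) * l := by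
  intro l hl h
  have := Int.le_of_dvd (by positivity) h
  push_cast at this
  omega

theorem nd44 (hn : n = 2 * M + 1) (hM : M = 2 * t) : ∀ l < t, ¬ (n : ℤ) ∣ (4 : ℤ) + ((4 : ℕ) : ℤ) * l := by
  intro l hl h
  have := Int.le_of_dvd (by positivity) h
  push_cast at this
  omega

theorem AB_add (hn : n = 2 * M + 1) (hM : M = 2 * t) :
    EQ n 1 (LL 1 ((4 : ℕ) : ℤ) t + LL 4 ((4 : ℕ) : ℤ) t) (-(t : K)) := by
  have hnz : (n : ℤ) = 4 * t + 1 := by rw [hn, hM]; push_cast; ring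
  have h1 : LL 4 ((4 : ℕ) : ℤ) t =
      ∑ l ∈ range t, lam ((4 : ℤ) + ((4 : ℕ) : ℤ) * ((t - 1 - l : ℕ) : ℤ)) := by
    rw [LL]
    exact (sum_range_reflect (fun l : ℕ => lam ((4 : ℤ) + ((4 : ℕ) : ℤ) * l)) t).symm
  rw [h1, LL, ← sum_add_distrib]
  have h2 : -(t : K) = ∑ l ∈ range t, (-1 : K) := by
    rw [sum_const, card_range, nsmul_eq_mul]; ring
  rw [h2]
  refine EQ.sum fun l hl => ?_
  have hl' := mem_range.1 hl
  have hnd := nd14 hn hM l hl'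
  have hnd' : ¬ (n : ℤ) ∣ -((1 : ℤ) + ((4 : ℕ) : ℤ) * l) := by rwa [dvd_neg]
  have h3 := lam_shift (n := n) hnd' 1
  have e : -((1 : ℤ) + ((4 : ℕ) : ℤ) * l) + n * 1 =
      (4 : ℤ) + ((4 : ℕ) : ℤ) * ((t - 1 - l : ℕ) : ℤ) := by
    have : ((t - 1 - l : ℕ) : ℤ) = t - 1 - l := by omega
    rw [this, hnz]; push_cast; ring
  rw [e] at h3
  have h4 := (EQ.refl (n := n) (k := 1) (lam_mem hnd)).add h3
  rwa [lam_neg (by rintro h0; exact hnd (h0 ▸ dvd_zero _))] at h4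

theorem gp1_U (hn : n = 2 * M + 1) (hM : M = 2 * t) (s : ℤ) : U n (gp n 1 (q ^ 4) t s) := by
  unfold gp poch
  refine U.prod fun l hl => ?_
  have e : q ^ ((1 : ℤ) + n * s) * (q ^ 4) ^ l = q ^ ((1 : ℤ) + ((4 : ℕ) : ℤ) * l + n * s) := by
    rw [← pow_mul, ← zpow_natCast q (4 * l), ← zpow_add₀ q_ne]; congr 1; push_cast; ring
  rw [e]
  apply U_one_sub
  intro h
  apply nd14 hn hM l (mem_range.1 hl)
  have := dvd_sub h (dvd_mul_right (n : ℤ) s)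
  simpa using this

theorem gp4_U (hn : n = 2 * M + 1) (hM : M = 2 * t) (s : ℤ) : U n (gp n 4 (q ^ 4) t s) := by
  unfold gp poch
  refine U.prod fun l hl => ?_
  have e : q ^ ((4 : ℤ) + n * s) * (q ^ 4) ^ l = q ^ ((4 : ℤ) + ((4 : ℕ) : ℤ) * l + n * s) := by
    rw [← pow_mul, ← zpow_natCast q (4 * l), ← zpow_add₀ q_ne]; congr 1; push_cast; ring
  rw [e]
  apply U_one_sub
  intro h
  apply nd44 hn hM l (mem_range.1 hl)
  have := dvd_sub h (dvd_mul_right (n : ℤ) s)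
  simpa using this

theorem FF_eq (hn : n = 2 * M + 1) (hM : M = 2 * t) (j : ℤ) :
    FF n M j = g1 n 2 M (8 * j) * (1 + q ^ ((n : ℤ) * (4 * j + 1))) *
      poch (q ^ ((3 : ℤ) - 2 * n)) (q ^ 4) M /
      (gp n 1 (q ^ 4) t (4 * j) * gp n 4 (q ^ 4) t (4 * j + 1) * g2 n 2 M (4 * j - 2)) := by
  have h1 : 1 - q ^ ((n : ℤ) * (8 * j + 2)) =
      (1 - q ^ ((n : ℤ) * (4 * j + 1))) * (1 + q ^ ((n : ℤ) * (4 * j + 1))) := by
    have : q ^ ((n : ℤ) * (8 * j + 2)) = q ^ ((n : ℤ) * (4 * j + 1)) * q ^ ((n : ℤ) * (4 * j + 1)) := by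
      rw [← zpow_add₀ q_ne]; congr 1; ring
    rw [this]; ring
  have h2 : 1 - q ^ ((n : ℤ) * (4 * j + 1)) ≠ 0 := by
    apply one_sub_zpow_ne
    have : (n : ℤ) ≠ 0 := by exact_mod_cast NeZero.ne n
    apply mul_ne_zero this
    omega
  have h3 := (gp1_U hn hM (4 * j)).1
  have h4 := (gp4_U hn hM (4 * j + 1)).1
  have h5 := (g2_U hn (hr2 hn) (show M < n by omega) (4 * j - 2)).1
  rw [FF, den_split hn hM, h1]
  field_simp

/-- the value at `j = 0` -/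
theorem FF_zero (hn : n = 2 * M + 1) (hM : M = 2 * t) : FF n M 0 / (1 + q) = R n := by
  have hnz : (n : ℤ) = 2 * M + 1 := by rw [hn]; push_cast; ring
  have hsgn : ((-1 : K)) ^ M = 1 := by rw [hM, pow_mul]; simp
  have refl : ∀ e : ℤ, poch (q ^ (e - 2 * n)) (q ^ 4) M =
      (-1) ^ M * q ^ (-((6 - e) * M + 2 * (M : ℤ) * (M - 1))) *
        ∏ l ∈ range M, (1 - q ^ ((6 - e) + 4 * (l : ℤ))) := by
    intro e
    have h1 : poch (q ^ (e - 2 * n)) (q ^ 4) M =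
        ∏ l ∈ range M, ((-1) * q ^ (-((6 - e) + 4 * (l : ℤ))) * (1 - q ^ ((6 - e) + 4 * (l : ℤ)))) := by
      rw [poch, ← prod_range_reflect]
      refine prod_congr rfl fun l hl => ?_
      have hl' := mem_range.1 hl
      have e1 : q ^ (e - 2 * n) * (q ^ 4) ^ (M - 1 - l) = q ^ (-((6 - e) + 4 * (l : ℤ))) := by
        rw [← pow_mul, ← zpow_natCast q (4 * (M - 1 - l)), ← zpow_add₀ q_ne]
        congr 1
        have : ((4 * (M - 1 - l) : ℕ) : ℤ) = 4 * (M - 1 - l) := by omega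
        rw [this, hnz]; ring
      rw [e1]
      have e2 : q ^ (-((6 - e) + 4 * (l : ℤ))) * q ^ ((6 - e) + 4 * (l : ℤ)) = 1 := by
        rw [← zpow_add₀ q_ne, neg_add_cancel, zpow_zero]
      linear_combination (-1) * e2
    rw [h1, prod_mul_distrib, prod_mul_distrib, prod_const, card_range]
    congr 2
    clear h1 hsgn hnz hn hM
    induction M with
    | zero => simp
    | succ k ih =>
      rw [prod_range_succ, ih, ← zpow_add₀ q_ne]
      congr 1; push_cast; ring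
  have hg2 : g2 n 2 M (4 * 0 - 2) = (-1) ^ M * q ^ (-(2 * M + 2 * (M : ℤ) * (M - 1))) * g1 n 2 M 0 := by
    have h := refl 4
    have e1 : g2 n 2 M (4 * 0 - 2) = poch (q ^ ((4 : ℤ) - 2 * n)) (q ^ 4) M := by
      rw [g2, gp]
      have h1 : ((2 * 2 : ℕ) : ℤ) + (n : ℤ) * (4 * 0 - 2) = 4 - 2 * n := by push_cast; ring
      rw [h1]
    have e2 : g1 n 2 M 0 = ∏ l ∈ range M, (1 - q ^ ((6 - 4) + 4 * (l : ℤ))) := by
      rw [g1, gp, poch]
      refine prod_congr rfl fun l _ => ?_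
      have h1 : ((2 : ℕ) : ℤ) + (n : ℤ) * 0 + ((2 * 2 * l : ℕ) : ℤ) = 6 - 4 + 4 * l := by
        push_cast; ring
      rw [← pow_mul, ← zpow_natCast q (2 * 2 * l), ← zpow_add₀ q_ne, h1]
    rw [e1, e2, h]; norm_num
  have hE := refl 3
  have hd : poch (q ^ ((1 : ℤ) + n * (4 * 0))) (q ^ 4) (M + 1) =
      (1 - q) * ∏ l ∈ range M, (1 - q ^ (4 * l + 5)) := by
    have e1 : q ^ ((1 : ℤ) + n * (4 * 0)) = q := by norm_num
    rw [e1, poch_succ', poch]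
    congr 1
    refine prod_congr rfl fun l _ => ?_
    rw [← pow_succ', ← pow_mul, ← pow_add]; congr 2; ring
  have hu1 := (g1_U hn (hr2 hn) le_rfl 0).1
  have hq1 : (1 - q : K) ≠ 0 := by simpa using one_sub_pow_ne one_ne_zero
  have hq2 : (1 - q ^ 2 : K) ≠ 0 := one_sub_pow_ne two_ne_zero
  have hq3 : (1 + q : K) ≠ 0 := by
    intro h0
    apply hq2
    have : (1 - q ^ 2 : K) = (1 - q) * (1 + q) := by ring
    rw [this, h0, mul_zero]
  have e8 : g1 n 2 M (8 * 0) = g1 n 2 M 0 := by norm_num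
  have e9 : q ^ ((n : ℤ) * (8 * 0 + 2)) = q ^ (2 * n) := by
    rw [← zpow_natCast]; congr 1; push_cast; ring
  have hdiv : (1 - (n : ℤ)) / 2 = -M := by rw [hnz]; omega
  have hn2 : (n - 1) / 2 = M := by omega
  rw [FF, hd, hg2, hE, e8, e9, R, hdiv, hn2, hsgn, one_mul, one_mul, prod_div_distrib]
  have e10 : ∏ l ∈ range M, (1 - q ^ ((6 - 3 : ℤ) + 4 * (l : ℤ))) = ∏ j ∈ range M, (1 - q ^ (4 * j + 3)) := by
    refine prod_congr rfl fun l _ => ?_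
    rw [← zpow_natCast q (4 * l + 3)]; congr 2; push_cast; ring
  have e11 : q ^ (-((6 - 3) * M + 2 * (M : ℤ) * (M - 1))) =
      q ^ (-(M : ℤ)) * q ^ (-(2 * M + 2 * (M : ℤ) * (M - 1))) := by
    rw [← zpow_add₀ q_ne]; congr 1; ring
  have hne : q ^ (-(2 * M + 2 * (M : ℤ) * (M - 1))) ≠ 0 := zpow_ne_zero _ q_ne
  have hp5 : ∏ l ∈ range M, (1 - q ^ (4 * l + 5) : K) ≠ 0 := by
    rw [prod_ne_zero_iff]; intro l _; exact one_sub_pow_ne (by omega)
  rw [e10, e11]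
  have e12 : (1 - q ^ 2 : K) = (1 - q) * (1 + q) := by ring
  rw [e12]
  field_simp

theorem one_add_U (hn : n = 2 * M + 1) (hn1 : 1 < n) : U n (1 + q) := by
  have h1 : U n (1 - q ^ (1 : ℤ)) := U_one_sub (fun h => by
    have := Int.le_of_dvd one_pos h
    omega)
  have h2 : U n (1 - q ^ (2 : ℤ)) := U_one_sub (fun h => by
    have := Int.le_of_dvd two_pos h
    omega)
  have h3 := h2.div h1
  have e : (1 - q ^ (2 : ℤ)) / (1 - q ^ (1 : ℤ)) = 1 + q := by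
    have := h1.1
    rw [zpow_one] at this ⊢
    rw [div_eq_iff this]
    have e2 : q ^ (2 : ℤ) = q ^ 2 := by norm_cast
    rw [e2]; ring
  rwa [e] at h3

/-- dependence on the block index -/
theorem FF_exp (hn : n = 2 * M + 1) (hM : M = 2 * t) (j : ℤ) :
    ∃ x ∈ O n, EQ n 1 x ((j : K) * (8 * LL ((2 : ℕ) : ℤ) ((2 * 2 : ℕ) : ℤ) M - 2 + 4 * t -
      4 * LL ((2 * 2 : ℕ) : ℤ) ((2 * 2 : ℕ) : ℤ) M)) ∧
      EQ n 2 (FF n M j) (FF n M 0 * (1 + w n * x)) := by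
  set L1 : K := LL ((2 : ℕ) : ℤ) ((2 * 2 : ℕ) : ℤ) M with hL1
  set L2 : K := LL ((2 * 2 : ℕ) : ℤ) ((2 * 2 : ℕ) : ℤ) M with hL2
  set A : K := LL 1 ((4 : ℕ) : ℤ) t with hA
  set B : K := LL 4 ((4 : ℕ) : ℤ) t with hB
  have hr := hr2 hn
  have hMn : M < n := by omega
  have hL1m : L1 ∈ O n := LL_mem (nd1 hn hr)
  have hL2m : L2 ∈ O n := LL_mem (nd2 hn hr)
  have hAm : A ∈ O n := LL_mem (nd14 hn hM)
  have hBm : B ∈ O n := LL_mem (nd44 hn hM)
  -- expansion with respect to the value at 0, for every j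
  have key : ∀ j : ℤ, EQ n 2 (FF n M j) ((g1 n 2 M 0 * poch (q ^ ((3 : ℤ) - 2 * n)) (q ^ 4) M * 2 /
      (gp n 1 (q ^ 4) t 0 * gp n 4 (q ^ 4) t 0 * g2 n 2 M 0)) *
      (1 + w n * ((8 * j : ℤ) * L1 - (4 * j + 1 : ℤ) / 2 - (4 * j : ℤ) * A - (4 * j + 1 : ℤ) * B -
        (4 * j - 2 : ℤ) * L2))) := by
    intro j
    rw [FF_eq hn hM]
    have hPm : poch (q ^ ((3 : ℤ) - 2 * n)) (q ^ 4) M ∈ O n := by
      unfold poch
      exact prod_mem fun l _ => sub_mem (one_mem _) (mul_mem (zpow_mem _) (pow_mem (pow_mem' _) _))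
    have a1 := gp_exp (n := n) (b := 2 * 2) (nd1 hn hr) (8 * j)
    have a2 := gp_exp (n := n) (b := 4) (nd14 hn hM) (4 * j)
    have a3 := gp_exp (n := n) (b := 4) (nd44 hn hM) (4 * j + 1)
    have a4 := gp_exp (n := n) (b := 2 * 2) (nd2 hn hr) (4 * j - 2)
    rw [← hL1] at a1
    rw [← hA] at a2
    rw [← hB] at a3
    rw [← hL2] at a4
    have m1 : ((8 * j : ℤ) : K) * L1 ∈ O n := mul_mem (intCast_mem _ _) hL1m
    have m2 : ((4 * j : ℤ) : K) * A ∈ O n := mul_mem (intCast_mem _ _) hAm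
    have m3 : ((4 * j + 1 : ℤ) : K) * B ∈ O n := mul_mem (intCast_mem _ _) hBm
    have m4 : ((4 * j - 2 : ℤ) : K) * L2 ∈ O n := mul_mem (intCast_mem _ _) hL2m
    have m5 : -((4 * j + 1 : ℤ) : K) / 2 ∈ O n := by
      rw [div_eq_mul_one_div]; exact mul_mem (neg_mem (intCast_mem _ _)) half_mem
    have h2m : (2 : K) ∈ O n := by exact_mod_cast natCast_mem (O n) 2
    have a5 : EQ n 2 (1 + q ^ ((n : ℤ) * (4 * j + 1))) (2 * (1 + w n * (-((4 * j + 1 : ℤ) : K) / 2))) := by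
      have := (EQ.refl (n := n) (k := 2) (one_mem _)).add (Qs_eq (n := n) (4 * j + 1))
      have e : 1 + (1 - ((4 * j + 1 : ℤ) : K) * w n) = 2 * (1 + w n * (-((4 * j + 1 : ℤ) : K) / 2)) := by
        ring
      rwa [e] at this
    have u1 := gp1_U hn hM (4 * j)
    have u2 := gp4_U hn hM (4 * j + 1)
    have u3 := g2_U hn hr hMn (4 * j - 2)
    have v1 := gp1_U hn hM 0
    have v2 := gp4_U hn hM 0
    have v3 := g2_U hn hr hMn 0
    have b1 := (((a1.mul a5).mul (EQ.refl (n := n) (k := 2) hPm)).div two_pos ((a2.mul a3).mul a4)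
      ((u1.mul u2).mul u3))
    refine b1.trans ?_
    have c1 := exp_mul' m1 m5
    have c2 := exp_mul' m2 m3
    have c3 := (c2.mul (EQ.refl (n := n) (k := 2) (show 1 + w n * (((4 * j - 2 : ℤ) : K) * L2) ∈ O n from
      add_mem (one_mem _) (mul_mem w_mem m4)))).trans (exp_mul' (add_mem m2 m3) m4)
    have c3' := c3.inv two_pos (((exp_inv m2).1.mul (exp_inv m3).1).mul (exp_inv m4).1)
    have c4 := c3'.trans (exp_inv (n := n) (add_mem (add_mem m2 m3) m4)).2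
    have c5 := (c1.mul c4).trans (exp_mul' (add_mem m1 m5) (neg_mem (add_mem (add_mem m2 m3) m4)))
    have hCm : (g1 n 2 M 0 * poch (q ^ ((3 : ℤ) - 2 * n)) (q ^ 4) M * 2 /
      (gp n 1 (q ^ 4) t 0 * gp n 4 (q ^ 4) t 0 * g2 n 2 M 0)) ∈ O n := by
      rw [div_eq_mul_inv]
      exact mul_mem (mul_mem (mul_mem ((gp_aff (pow_mem' _) _ _).mem 0) hPm) h2m)
        ((v1.mul v2).mul v3).2.2
    have c6 := (EQ.refl (n := n) (k := 2) hCm).mul c5
    have e1 : gp n ((2 : ℕ) : ℤ) (q ^ (2 * 2)) M 0 * (1 + w n * (((8 * j : ℤ) : K) * L1)) *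
        (2 * (1 + w n * (-((4 * j + 1 : ℤ) : K) / 2))) * poch (q ^ ((3 : ℤ) - 2 * n)) (q ^ 4) M /
        (gp n 1 (q ^ 4) t 0 * (1 + w n * (((4 * j : ℤ) : K) * A)) *
          (gp n 4 (q ^ 4) t 0 * (1 + w n * (((4 * j + 1 : ℤ) : K) * B))) *
          (gp n ((2 * 2 : ℕ) : ℤ) (q ^ (2 * 2)) M 0 * (1 + w n * (((4 * j - 2 : ℤ) : K) * L2)))) =
        g1 n 2 M 0 * poch (q ^ ((3 : ℤ) - 2 * n)) (q ^ 4) M * 2 /
          (gp n 1 (q ^ 4) t 0 * gp n 4 (q ^ 4) t 0 * g2 n 2 M 0) *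
        ((1 + w n * (((8 * j : ℤ) : K) * L1)) * (1 + w n * (-((4 * j + 1 : ℤ) : K) / 2)) *
          ((1 + w n * (((4 * j : ℤ) : K) * A)) * (1 + w n * (((4 * j + 1 : ℤ) : K) * B)) *
            (1 + w n * (((4 * j - 2 : ℤ) : K) * L2)))⁻¹) := by
      rw [div_eq_mul_inv, div_eq_mul_inv]
      simp only [mul_inv]
      ring
    rw [e1]
    have e2 : ((8 * j : ℤ) : K) * L1 + -((4 * j + 1 : ℤ) : K) / 2 +
        -(((4 * j : ℤ) : K) * A + ((4 * j + 1 : ℤ) : K) * B + ((4 * j - 2 : ℤ) : K) * L2) =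
        ((8 * j : ℤ) * L1 - (4 * j + 1 : ℤ) / 2 - (4 * j : ℤ) * A - (4 * j + 1 : ℤ) * B -
        (4 * j - 2 : ℤ) * L2) := by ring
    rw [e2] at c6
    exact c6
  set C0 : K := (g1 n 2 M 0 * poch (q ^ ((3 : ℤ) - 2 * n)) (q ^ 4) M * 2 /
      (gp n 1 (q ^ 4) t 0 * gp n 4 (q ^ 4) t 0 * g2 n 2 M 0)) with hC0
  have hO : ∀ j : ℤ, ((8 * j : ℤ) * L1 - (4 * j + 1 : ℤ) / 2 - (4 * j : ℤ) * A - (4 * j + 1 : ℤ) * B -
        (4 * j - 2 : ℤ) * L2 : K) ∈ O n := by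
    intro j
    refine sub_mem (sub_mem (sub_mem (sub_mem (mul_mem (intCast_mem _ _) hL1m) ?_)
      (mul_mem (intCast_mem _ _) hAm)) (mul_mem (intCast_mem _ _) hBm))
      (mul_mem (intCast_mem _ _) hL2m)
    rw [div_eq_mul_one_div]; exact mul_mem (intCast_mem _ _) half_mem
  have k0 := key 0
  have kj := key j
  set y0 : K := ((8 * 0 : ℤ) * L1 - (4 * 0 + 1 : ℤ) / 2 - (4 * 0 : ℤ) * A - (4 * 0 + 1 : ℤ) * B -
        (4 * 0 - 2 : ℤ) * L2) with hy0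
  set yj : K := ((8 * j : ℤ) * L1 - (4 * j + 1 : ℤ) / 2 - (4 * j : ℤ) * A - (4 * j + 1 : ℤ) * B -
        (4 * j - 2 : ℤ) * L2) with hyj
  refine ⟨yj - y0, sub_mem (hO j) (hO 0), ?_, ?_⟩
  · have hAB := AB_add hn hM
    rw [← hA, ← hB] at hAB
    have e : yj - y0 = (j : K) * (8 * L1 - 2 - 4 * (A + B) - 4 * L2) := by
      rw [hyj, hy0]; push_cast; ring
    rw [e]
    refine (EQ.refl (intCast_mem _ _)).mul ?_
    have h8 : (8 : K) ∈ O n := by exact_mod_cast natCast_mem (O n) 8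
    have h4 : (4 : K) ∈ O n := by exact_mod_cast natCast_mem (O n) 4
    have h2 : (2 : K) ∈ O n := by exact_mod_cast natCast_mem (O n) 2
    have := ((EQ.refl (n := n) (k := 1) (sub_mem (mul_mem h8 hL1m) h2)).sub
      ((EQ.refl h4).mul hAB)).sub (EQ.refl (mul_mem h4 hL2m))
    have e3 : 8 * L1 - 2 - 4 * -(t : K) - 4 * L2 = 8 * L1 - 2 + 4 * t - 4 * L2 := by ring
    rwa [e3] at this
  · have h1 := (k0.symm.mul (EQ.refl (n := n) (k := 2) (show 1 + w n * (yj - y0) ∈ O n from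
      add_mem (one_mem _) (mul_mem w_mem (sub_mem (hO j) (hO 0)))))).symm
    have h2 := exp_mul' (hO 0) (sub_mem (hO j) (hO 0))
    have e : y0 + (yj - y0) = yj := by ring
    rw [e] at h2
    have hC : C0 ∈ O n := by
      have hPm : poch (q ^ ((3 : ℤ) - 2 * n)) (q ^ 4) M ∈ O n := by
        unfold poch
        exact prod_mem fun l _ => sub_mem (one_mem _) (mul_mem (zpow_mem _) (pow_mem (pow_mem' _) _))
      have v1 := gp1_U hn hM 0
      have v2 := gp4_U hn hM 0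
      have v3 := g2_U hn hr hMn 0
      rw [hC0, div_eq_mul_inv]
      exact mul_mem (mul_mem (mul_mem ((gp_aff (pow_mem' _) _ _).mem 0) hPm)
        (by exact_mod_cast natCast_mem (O n) 2)) ((v1.mul v2).mul v3).2.2
    have h3 := (EQ.refl (n := n) (k := 2) hC).mul h2
    rw [← mul_assoc] at h3
    exact kj.trans (h3.symm.trans h1.symm)

/-- the block congruence -/
theorem block_sum (hn : n = 2 * M + 1) (hM : M = 2 * t) (hn1 : 1 < n) (j : ℕ) :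
    EQ n 2 (∑ i ∈ range n, a (j * n + i)) (R n * ((ch j : K)) ^ 3) := by
  have hr := hr2 hn
  have h1q := one_add_U hn hn1
  have hMn : M < n := by omega
  have e1 : ∀ i : ℕ, a (j * n + i) = q ^ ((n : ℤ) * j) * RR n 2 j ^ 3 * (1 + q)⁻¹ * tt n j i := by
    intro i
    have h := ratio_block (n := n) (r := 2) j i
    have h4 : (2 : ℤ) * j * ((2 : ℕ) : ℤ) = 4 * j := by push_cast; ring
    rw [h4] at h
    rw [a_eq, h, tt]
    have e2 : (q ^ (j * n + i) : K) = q ^ ((n : ℤ) * j) * q ^ i := by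
      rw [pow_add, ← zpow_natCast q (j * n)]; congr 2; push_cast; ring
    have e3 : q ^ (4 * ((j * n + i : ℕ) : ℤ) + 1) = q ^ (4 * (i : ℤ) + 1 + n * (4 * j)) := by
      congr 1; push_cast; ring
    rw [e2, e3]
    ring
  rw [sum_congr rfl fun i _ => e1 i, ← mul_sum]
  have s2 : EQ n 2 (∑ i ∈ range n, tt n j i) (∑ i ∈ range (M + 1), ss n j i) := by
    have : ∑ i ∈ range n, tt n j i = ∑ i ∈ range (M + 1), tt n j i +
        ∑ i ∈ range M, tt n j (M + 1 + i) := by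
      rw [← sum_range_add]; congr 1; rw [hn]; congr 1; ring
    rw [this]
    have a1 : EQ n 2 (∑ i ∈ range (M + 1), tt n j i) (∑ i ∈ range (M + 1), ss n j i) :=
      EQ.sum fun i hi => tt_ss hn j (by have := mem_range.1 hi; omega)
    have a2 : EQ n 2 (∑ i ∈ range M, tt n j (M + 1 + i)) 0 := by
      apply EQ.of_I
      refine I.sum fun i hi => ?_
      have hi' := mem_range.1 hi
      have hlt : M + 1 + i < n := by omega
      unfold tt
      have b1 := g1_I hn 2 (i := M + 1 + i) (by omega) (4 * j)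
      have b2 := g2_U hn hr hlt (4 * j)
      refine I.mulL (mul_mem (add_mem (one_mem _) (zpow_mem _)) (pow_mem' _)) ?_
      exact ((b1.mul b1).mulR b1.mem).mulR (mul_mem (mul_mem b2.2.2 b2.2.2) b2.2.2)
    have := a1.add a2
    rwa [add_zero] at this
  rw [ss_sum hn j] at s2
  obtain ⟨x, hx, hx1, hF⟩ := FF_exp hn hM (j : ℤ)
  have hRR := RR_exp hn two_pos hr j
  have hQ := Qs_eq (n := n) (j : ℤ)
  have hxr := xr_mem hn hr
  have hjx : (j : K) * xr 2 M ∈ O n := mul_mem (natCast_mem _ _) hxr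
  have hjn : -((j : ℤ) : K) ∈ O n := neg_mem (intCast_mem _ _)
  have hch : (ch j : K) ∈ O n := rat_mem _
  -- expansion of RR^3
  have c1 := (exp_mul' hjx hjx)
  have c2 := (c1.mul (EQ.refl (n := n) (k := 2) (show 1 + w n * ((j : K) * xr 2 M) ∈ O n from
    add_mem (one_mem _) (mul_mem w_mem hjx)))).trans (exp_mul' (add_mem hjx hjx) hjx)
  have c3 : EQ n 2 (RR n 2 j ^ 3) ((ch j : K) ^ 3 * (1 + w n * ((j : K) * xr 2 M + (j : K) * xr 2 M +
      (j : K) * xr 2 M))) := by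
    have h := hRR.pow 3
    have e : ((ch j : K) * (1 + w n * ((j : K) * xr 2 M))) ^ 3 = (ch j : K) ^ 3 *
        ((1 + w n * ((j : K) * xr 2 M)) * (1 + w n * ((j : K) * xr 2 M)) *
          (1 + w n * ((j : K) * xr 2 M))) := by ring
    rw [e] at h
    exact h.trans ((EQ.refl (pow_mem hch 3)).mul c2)
  have h3jx : (j : K) * xr 2 M + (j : K) * xr 2 M + (j : K) * xr 2 M ∈ O n :=
    add_mem (add_mem hjx hjx) hjx
  have hQ' : EQ n 2 (q ^ ((n : ℤ) * j)) (1 + w n * (-((j : ℤ) : K))) := by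
    have e : 1 + w n * (-((j : ℤ) : K)) = 1 - ((j : ℤ) : K) * w n := by ring
    rw [e]; exact hQ
  have hFFm : FF n M 0 ∈ O n := by
    have h := hF.2.1
    have hU := (exp_inv (n := n) hx).1
    have : FF n M 0 = FF n M 0 * (1 + w n * x) * (1 + w n * x)⁻¹ := by
      rw [mul_assoc, mul_inv_cancel₀ hU.1, mul_one]
    rw [this]; exact mul_mem h hU.2.2
  have hall := ((hQ'.mul c3).mul (EQ.refl (n := n) (k := 2) h1q.2.2)).mul (s2.trans hF)
  refine hall.trans ?_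
  -- collect
  have c4 := (exp_mul' hjn h3jx)
  have c5 := (c4.mul (EQ.refl (n := n) (k := 2) (show 1 + w n * x ∈ O n from
    add_mem (one_mem _) (mul_mem w_mem hx)))).trans (exp_mul' (add_mem hjn h3jx) hx)
  have hpre : R n * (ch j : K) ^ 3 ∈ O n := by
    rw [← FF_zero hn hM, div_eq_mul_inv]
    exact mul_mem (mul_mem hFFm h1q.2.2) (pow_mem hch 3)
  have c6 := (EQ.refl (n := n) (k := 2) hpre).mul c5
  have e3 : (1 + w n * (-((j : ℤ) : K))) * ((ch j : K) ^ 3 * (1 + w n * ((j : K) * xr 2 M +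
      (j : K) * xr 2 M + (j : K) * xr 2 M))) * (1 + q)⁻¹ * (FF n M 0 * (1 + w n * x)) =
      R n * (ch j : K) ^ 3 * ((1 + w n * (-((j : ℤ) : K))) * (1 + w n * ((j : K) * xr 2 M +
      (j : K) * xr 2 M + (j : K) * xr 2 M)) * (1 + w n * x)) := by
    rw [← FF_zero hn hM, div_eq_mul_inv]; ring
  rw [e3]
  refine c6.trans ?_
  -- the first-order coefficient vanishes modulo `w`
  set z : K := -((j : ℤ) : K) + ((j : K) * xr 2 M + (j : K) * xr 2 M + (j : K) * xr 2 M) + x with hz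
  have hz1 : EQ n 1 z 0 := by
    have hL := LL_add hn hr
    set L1 : K := LL ((2 : ℕ) : ℤ) ((2 * 2 : ℕ) : ℤ) M with hL1
    set L2 : K := LL ((2 * 2 : ℕ) : ℤ) ((2 * 2 : ℕ) : ℤ) M with hL2
    have hL1m : L1 ∈ O n := LL_mem (nd1 hn hr)
    have hL2m : L2 ∈ O n := LL_mem (nd2 hn hr)
    have h1 := (EQ.refl (n := n) (k := 1) (add_mem hjn h3jx)).add hx1
    have e4 : -((j : ℤ) : K) + ((j : K) * xr 2 M + (j : K) * xr 2 M + (j : K) * xr 2 M) +
        (((j : ℤ) : K) * (8 * L1 - 2 + 4 * t - 4 * L2)) = (j : K) * (2 * (L1 + L2) + 4 * t) := by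
      rw [xr, ← hL1, ← hL2]; push_cast; ring
    rw [e4] at h1
    have h2 : (2 : K) ∈ O n := by exact_mod_cast natCast_mem (O n) 2
    have h4 : (4 * t : K) ∈ O n := by exact_mod_cast natCast_mem (O n) (4 * t)
    have h5 := (EQ.refl (n := n) (k := 1) (natCast_mem (O n) j)).mul
      (((EQ.refl h2).mul hL).add (EQ.refl h4))
    have e5 : (j : K) * (2 * (-(M : K)) + 4 * t) = 0 := by
      rw [hM]; push_cast; ring
    rw [e5] at h5
    exact h1.trans h5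
  have hw := hz1.w_mul
  rw [mul_zero] at hw
  have h6 := (EQ.refl (n := n) (k := 2) hpre).mul ((EQ.refl (one_mem _)).add hw)
  rw [add_zero, mul_one] at h6
  exact h6

theorem main (hn : n = 2 * M + 1) (hM : M = 2 * t) (hn1 : 1 < n) (m : ℕ) :
    EQ n 2 (∑ k ∈ range (m * n), a k) (R n * ((∑ k ∈ range m, c k : ℚ) : K)) := by
  rw [sum_blocks]
  have h := EQ.sum (s := range m) fun j _ => block_sum hn hM hn1 j
  have e : ∑ j ∈ range m, R n * ((ch j : K)) ^ 3 = R n * ((∑ k ∈ range m, c k : ℚ) : K) := by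
    rw [← mul_sum]
    congr 1
    push_cast
    refine sum_congr rfl fun j _ => ?_
    rw [ch, c]; push_cast; rw [div_pow]
  rwa [e] at h

end

/-- **Answer to Q1.** -/
theorem result (m n : ℕ) (_hm : 1 ≤ m) (hn1 : 1 < n) (hmod : n % 4 = 1) :
    Cong (cyclotomic n ℚ ^ 2) (∑ k ∈ range (m * n), a k) (R n * ((∑ k ∈ range m, c k : ℚ) : K)) := by
  have : NeZero n := ⟨by omega⟩
  obtain ⟨t, ht⟩ : ∃ t, n = 4 * t + 1 := ⟨n / 4, by omega⟩
  exact num_of_I (main (M := 2 * t) (t := t) (by omega) rfl hn1 m).2.2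

end Pool.Agent.Results.MP_c9c571_nt.LiuAnalogue
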